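import Pool.Agent.W2helper59.LN.Eng
import Pool.Agent.W2helper71.LN.P12

set_option autoImplicit false

namespace Pool.Agent.W2helper68.LN

open MvPolynomial Pool.Agent.W2helper59.LN Pool.Agent.W2helper71.LN

/-! ### ring homomorphisms -/

section hom
variable {A B : Type*} [CommRing A] [CommRing B] (f : A →+* B)

lemma map_ev1 (d : A) (l : List ℤ) : f (ev1 d l) = ev1 (f d) l := by
  induction l with
  | nil => simp [ev1]
  | cons a l ih => simp [ev1, ih]

lemma map_ev2 (t d : A) (L : List (List ℤ)) : f (ev2 t d L) = ev2 (f t) (f d) L := by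
  induction L with
  | nil => simp [ev2]
  | cons a l ih => simp [ev2, ih, map_ev1]

lemma map_ePoly (hd : Hdr) (s : StepD) (L : List (List ℤ)) (τ δ : A) :
    f (ePoly hd s L τ δ) = ePoly hd s L (f τ) (f δ) := by
  have h2 : f 2 = 2 := map_ofNat f 2
  simp [ePoly, map_ev2, h2]

end hom

lemma ev1Z_eq (d : ℤ) (l : List ℤ) : ev1Z d l = ev1 d l := by
  induction l with
  | nil => simp [ev1, ev1Z]
  | cons a l ih => simp [ev1, ev1Z, ih]

lemma ev2Z_eq (t d : ℤ) (L : List (List ℤ)) : ev2Z t d L = ev2 t d L := by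
  induction L with
  | nil => simp [ev2, ev2Z]
  | cons a l ih => simp [ev2, ev2Z, ih, ev1Z_eq]

lemma eInt_eq (hd : Hdr) (s : StepD) (L : List (List ℤ)) :
    eInt hd s L = ePoly hd s L ((2 ^ hd.b) ^ (7 * hd.k) : ℤ) (2 ^ hd.b : ℤ) := by
  simp only [eInt, ePoly, ev2Z_eq, Int.cast_id]
  ring

/-! ### lengths and norms of lists -/

lemma length_smulL (c : ℤ) (l : List ℤ) : (smulL c l).length = l.length := by
  induction l with
  | nil => rfl
  | cons a l ih => simp [smulL, ih]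

lemma n1_smulL (c : ℤ) (l : List ℤ) : n1 (smulL c l) = c.natAbs * n1 l := by
  induction l with
  | nil => simp [smulL, n1]
  | cons a l ih => simp [smulL, n1, ih, Int.natAbs_mul, Nat.mul_add]

lemma length_dTaux (L : List (List ℤ)) : ∀ i : ℤ, (dTaux i L).length = L.length := by
  induction L with
  | nil => intro i; rfl
  | cons r L ih => intro i; simp [dTaux, ih]

lemma rows_dTaux (k : ℕ) (L : List (List ℤ)) (h : ∀ r ∈ L, r.length ≤ k) :
    ∀ i : ℤ, ∀ r ∈ dTaux i L, r.length ≤ k := by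
  induction L with
  | nil => intro i r hr; simp [dTaux] at hr
  | cons a L ih =>
    intro i r hr
    simp only [dTaux, List.mem_cons] at hr
    rcases hr with rfl | hr
    · rw [length_smulL]; exact h a (by simp)
    · exact ih (fun r hr => h r (by simp [hr])) _ r hr

lemma n2_dTaux (L : List (List ℤ)) : ∀ i : ℕ, n2 (dTaux (i : ℤ) L) ≤ (i + L.length) * n2 L := by
  induction L with
  | nil => intro i; simp [dTaux, n2]
  | cons a L ih =>
    intro i
    have h := ih (i + 1)
    simp only [dTaux, n2, n1_smulL, List.length_cons, Int.natAbs_natCast]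
    push_cast at h
    calc i * n1 a + n2 (dTaux ((i : ℤ) + 1) L)
        ≤ i * n1 a + (i + 1 + L.length) * n2 L := by gcongr
      _ ≤ (i + (L.length + 1)) * (n1 a + n2 L) := by nlinarith [Nat.zero_le (n1 a), Nat.zero_le (n2 L)]

lemma length_dTau (L : List (List ℤ)) : (dTau L).length = L.length - 1 := by
  rw [dTau, length_dTaux, List.length_tail]

lemma rows_dTau (k : ℕ) (L : List (List ℤ)) (h : ∀ r ∈ L, r.length ≤ k) :
    ∀ r ∈ dTau L, r.length ≤ k :=
  rows_dTaux k L.tail (fun r hr => h r (List.mem_of_mem_tail hr)) 1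

lemma n2_tail (L : List (List ℤ)) : n2 L.tail ≤ n2 L := by
  cases L with
  | nil => simp
  | cons a L => simp [n2]

lemma n2_dTau (L : List (List ℤ)) : n2 (dTau L) ≤ L.length * n2 L := by
  cases L with
  | nil => simp [dTau, dTaux, n2]
  | cons a L =>
    have h := n2_dTaux L 1
    simp only [dTau, List.tail_cons, List.length_cons, n2]
    calc n2 (dTaux 1 L) ≤ (1 + L.length) * n2 L := by simpa using h
      _ ≤ (L.length + 1) * (n1 a + n2 L) := by nlinarith [Nat.zero_le (n1 a), Nat.zero_le (n2 L)]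

lemma length_dec1 (k : ℕ) : ∀ Y, (dec1 k Y).length = k := by
  induction k with
  | zero => intro Y; rfl
  | succ k ih => intro Y; simp [dec1, ih]

lemma length_dec2 (k n : ℕ) : ∀ Y, (dec2 k n Y).length = n := by
  induction n with
  | zero => intro Y; rfl
  | succ n ih => intro Y; simp [dec2, ih]

lemma rows_dec2 (k n : ℕ) : ∀ Y, ∀ r ∈ dec2 k n Y, r.length ≤ k := by
  induction n with
  | zero => intro Y r hr; simp [dec2] at hr
  | succ n ih =>
    intro Y r hr
    simp only [dec2, List.mem_cons] at hr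
    rcases hr with rfl | hr
    · rw [length_dec1]
    · exact ih _ r hr

/-! ### norms of polynomials -/

abbrev PZ := MvPolynomial (Fin 2) ℤ

lemma norm1_int (c : ℤ) : norm1 ((c : ℤ) : PZ) = |c| := by
  have := p12_norm.2.2.1 c
  rwa [show (C c : PZ) = ((c : ℤ) : PZ) from rfl] at this

lemma norm1_nat (c : ℕ) : norm1 ((c : ℕ) : PZ) = (c : ℤ) := by
  have := norm1_int (c : ℤ)
  simpa using this

lemma norm1_two_pow (m : ℕ) : norm1 ((2 : PZ) ^ m) = 2 ^ m := by
  have := norm1_nat (2 ^ m)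
  push_cast at this
  exact this

lemma norm1_two : norm1 (2 : PZ) = 2 := by
  have := norm1_nat 2
  exact_mod_cast this

lemma norm1_X (i : Fin 2) : norm1 (X i : PZ) = 1 := p12_norm.2.2.2.1 i

lemma norm1_pow (P : PZ) (n : ℕ) : norm1 (P ^ n) ≤ norm1 P ^ n := by
  induction n with
  | zero =>
    have := norm1_nat 1
    simp only [Nat.cast_one] at this
    simp [this]
  | succ n ih =>
    rw [pow_succ, pow_succ]
    refine (norm1_mul _ _).trans ?_
    have := norm1_nonneg P
    gcongr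

lemma norm1_ev1 (l : List ℤ) : norm1 (ev1 (X 1 : PZ) l) ≤ (n1 l : ℤ) := by
  induction l with
  | nil => simp [ev1, n1, norm1]
  | cons a l ih =>
    simp only [ev1, n1]
    refine (norm1_add _ _).trans ?_
    have h1 := norm1_mul (X 1 : PZ) (ev1 (X 1) l)
    rw [norm1_X, one_mul] at h1
    rw [norm1_int]
    push_cast
    linarith [h1.trans ih]

lemma norm1_ev2 (L : List (List ℤ)) : norm1 (ev2 (X 0 : PZ) (X 1) L) ≤ (n2 L : ℤ) := by
  induction L with
  | nil => simp [ev2, n2, norm1]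
  | cons a l ih =>
    simp only [ev2, n2]
    refine (norm1_add _ _).trans ?_
    have h1 := norm1_mul (X 0 : PZ) (ev2 (X 0) (X 1) l)
    rw [norm1_X, one_mul] at h1
    have h2 := norm1_ev1 a
    push_cast
    linarith [h1.trans ih]

lemma norm1_mul_le {P Q : PZ} {a b : ℤ} (hP : norm1 P ≤ a) (hQ : norm1 Q ≤ b) :
    norm1 (P * Q) ≤ a * b := by
  refine (norm1_mul P Q).trans ?_
  have := norm1_nonneg P
  have := norm1_nonneg Q
  exact mul_le_mul hP hQ (norm1_nonneg Q) ((norm1_nonneg P).trans hP)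

lemma norm1_add_le {P Q : PZ} {a b : ℤ} (hP : norm1 P ≤ a) (hQ : norm1 Q ≤ b) :
    norm1 (P + Q) ≤ a + b :=
  (norm1_add P Q).trans (add_le_add hP hQ)

lemma norm1_pow_le {P : PZ} {a : ℤ} (hP : norm1 P ≤ a) (n : ℕ) : norm1 (P ^ n) ≤ a ^ n :=
  (norm1_pow P n).trans (pow_le_pow_left₀ (norm1_nonneg P) hP n)

lemma norm1_ePoly (hd : Hdr) (s : StepD) (L : List (List ℤ)) (hn : L.length ≤ hd.n) :
    norm1 (ePoly hd s L (X 0 : PZ) (X 1)) ≤ (crude hd s (n2 L) : ℤ) := by
  set U := n2 L with hU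
  have hu : norm1 (ev2 (X 0 : PZ) (X 1) L) ≤ (U : ℤ) := norm1_ev2 L
  have hu1 : norm1 (ev2 (X 0 : PZ) (X 1) (dTau L)) ≤ (hd.n * U : ℤ) := by
    refine (norm1_ev2 _).trans ?_
    have : n2 (dTau L) ≤ hd.n * U :=
      (n2_dTau L).trans (Nat.mul_le_mul_right _ hn)
    exact_mod_cast this
  have hu2 : norm1 (ev2 (X 0 : PZ) (X 1) (dTau (dTau L))) ≤ (hd.n ^ 2 * U : ℤ) := by
    refine (norm1_ev2 _).trans ?_
    have h1 : n2 (dTau L) ≤ hd.n * U :=
      (n2_dTau L).trans (Nat.mul_le_mul_right _ hn)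
    have h2 : n2 (dTau (dTau L)) ≤ hd.n * (hd.n * U) := by
      refine (n2_dTau _).trans (Nat.mul_le_mul ?_ h1)
      rw [length_dTau]; omega
    have h3 : n2 (dTau (dTau L)) ≤ hd.n ^ 2 * U := by
      calc _ ≤ _ := h2
        _ = _ := by ring
    exact_mod_cast h3
  have hct : norm1 (((s.C : PZ)) + (s.H : PZ) * X 0) ≤ ((s.C : ℤ) + s.H * 1) := by
    refine norm1_add_le (norm1_nat _).le (norm1_mul_le (norm1_nat _).le (norm1_X 0).le)
  have hB : norm1 (((hd.B0 : PZ)) + (hd.B1 : PZ) * X 1) ≤ (|hd.B0| + |hd.B1| * 1) := by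
    refine norm1_add_le (norm1_int _).le (norm1_mul_le (norm1_int _).le (norm1_X 1).le)
  have hfin := norm1_add_le
    (norm1_mul_le (norm1_two_pow (hd.e + 2 * s.mm + 6 * s.M)).le
      (norm1_add_le (norm1_mul_le hct hu2)
        (norm1_mul_le (norm1_mul_le norm1_two.le (norm1_nat s.H).le) hu1)))
    (norm1_mul_le (norm1_mul_le (norm1_pow_le (norm1_nat s.H).le 2) hct)
      (norm1_add_le (norm1_mul_le (norm1_two_pow (hd.e + 3 * s.M)).le (norm1_pow_le hu 4))
        (norm1_mul_le hB (norm1_pow_le hu 7))))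
  refine hfin.trans (le_of_eq ?_)
  simp only [crude]
  push_cast
  simp only [mul_one]

/-! ### degrees -/

lemma degreeOf_int (i : Fin 2) (c : ℤ) : degreeOf i ((c : ℤ) : PZ) = 0 := by
  rw [show ((c : ℤ) : PZ) = C c from rfl]
  exact degreeOf_C c i

lemma degreeOf_nat (i : Fin 2) (c : ℕ) : degreeOf i ((c : ℕ) : PZ) = 0 := by
  have := degreeOf_int i (c : ℤ)
  simpa using this

lemma degreeOf_two_pow (i : Fin 2) (c : ℕ) : degreeOf i ((2 : PZ) ^ c) = 0 := by
  have := degreeOf_nat i (2 ^ c)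
  push_cast at this
  exact this

lemma degreeOf_two (i : Fin 2) : degreeOf i (2 : PZ) = 0 := by
  have := degreeOf_nat i 2
  exact_mod_cast this

lemma deg_add_le {i : Fin 2} {P Q : PZ} {a : ℕ} (hP : degreeOf i P ≤ a) (hQ : degreeOf i Q ≤ a) :
    degreeOf i (P + Q) ≤ a :=
  (degreeOf_add_le i P Q).trans (max_le hP hQ)

lemma deg_mul_le {i : Fin 2} {P Q : PZ} {a b : ℕ} (hP : degreeOf i P ≤ a)
    (hQ : degreeOf i Q ≤ b) : degreeOf i (P * Q) ≤ a + b :=
  (degreeOf_mul_le i P Q).trans (add_le_add hP hQ)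

lemma deg_pow_le {i : Fin 2} {P : PZ} {a : ℕ} (hP : degreeOf i P ≤ a) (n : ℕ) :
    degreeOf i (P ^ n) ≤ n * a :=
  (degreeOf_pow_le i P n).trans (Nat.mul_le_mul_left n hP)

lemma deg0_ev1 (l : List ℤ) : degreeOf 0 (ev1 (X 1 : PZ) l) ≤ 0 := by
  induction l with
  | nil => simp [ev1]
  | cons a l ih =>
    simp only [ev1]
    refine deg_add_le (degreeOf_int 0 a).le ?_
    have hX : degreeOf (0 : Fin 2) (X 1 : PZ) ≤ 0 := by
      rw [degreeOf_X]; simp
    exact deg_mul_le hX ih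

lemma deg1_ev1 (l : List ℤ) (k : ℕ) (h : l.length ≤ k + 1) :
    degreeOf 1 (ev1 (X 1 : PZ) l) ≤ k := by
  induction l generalizing k with
  | nil => simp [ev1]
  | cons a l ih =>
    simp only [ev1]
    refine deg_add_le ((degreeOf_int 1 a).le.trans (Nat.zero_le _)) ?_
    have hX : degreeOf (1 : Fin 2) (X 1 : PZ) ≤ 1 := by
      rw [degreeOf_X]; simp
    cases k with
    | zero =>
      have : l = [] := by
        simp only [List.length_cons] at h
        exact List.length_eq_zero_iff.mp (by omega)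
      subst this
      simp [ev1]
    | succ k =>
      simp only [List.length_cons] at h
      have := deg_mul_le hX (ih k (by omega))
      omega

lemma deg1_ev2 (L : List (List ℤ)) (k : ℕ) (h : ∀ r ∈ L, r.length ≤ k + 1) :
    degreeOf 1 (ev2 (X 0 : PZ) (X 1) L) ≤ k := by
  induction L with
  | nil => simp [ev2]
  | cons a l ih =>
    simp only [ev2]
    refine deg_add_le (deg1_ev1 a k (h a (by simp))) ?_
    have hX : degreeOf (1 : Fin 2) (X 0 : PZ) ≤ 0 := by
      rw [degreeOf_X]; simp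
    have := deg_mul_le hX (ih (fun r hr => h r (by simp [hr])))
    omega

lemma deg0_ev2 (L : List (List ℤ)) (n : ℕ) (h : L.length ≤ n + 1) :
    degreeOf 0 (ev2 (X 0 : PZ) (X 1) L) ≤ n := by
  induction L generalizing n with
  | nil => simp [ev2]
  | cons a l ih =>
    simp only [ev2]
    refine deg_add_le ((deg0_ev1 a).trans (Nat.zero_le _)) ?_
    have hX : degreeOf (0 : Fin 2) (X 0 : PZ) ≤ 1 := by
      rw [degreeOf_X]; simp
    cases n with
    | zero =>
      have : l = [] := by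
        simp only [List.length_cons] at h
        exact List.length_eq_zero_iff.mp (by omega)
      subst this
      simp [ev2]
    | succ n =>
      simp only [List.length_cons] at h
      have := deg_mul_le hX (ih n (by omega))
      omega

lemma deg_ePoly (hd : Hdr) (s : StepD) (L : List (List ℤ)) (i : Fin 2) (a c e : ℕ)
    (hu : degreeOf i (ev2 (X 0 : PZ) (X 1) L) ≤ a)
    (hu1 : degreeOf i (ev2 (X 0 : PZ) (X 1) (dTau L)) ≤ a)
    (hu2 : degreeOf i (ev2 (X 0 : PZ) (X 1) (dTau (dTau L))) ≤ a)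
    (h0 : degreeOf i (X 0 : PZ) ≤ c) (h1 : degreeOf i (X 1 : PZ) ≤ e) :
    degreeOf i (ePoly hd s L (X 0 : PZ) (X 1)) ≤ c + e + 7 * a := by
  have hct : degreeOf i (((s.C : PZ)) + (s.H : PZ) * X 0) ≤ c := by
    refine deg_add_le ((degreeOf_nat i _).le.trans (Nat.zero_le _)) ?_
    have := deg_mul_le (degreeOf_nat i s.H).le h0
    omega
  have hB : degreeOf i (((hd.B0 : PZ)) + (hd.B1 : PZ) * X 1) ≤ e := by
    refine deg_add_le ((degreeOf_int i _).le.trans (Nat.zero_le _)) ?_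
    have := deg_mul_le (degreeOf_int i hd.B1).le h1
    omega
  have hT : degreeOf i ((2 : PZ) ^ (hd.e + 2 * s.mm + 6 * s.M)) ≤ 0 := (degreeOf_two_pow i _).le
  have hT' : degreeOf i ((2 : PZ) ^ (hd.e + 3 * s.M)) ≤ 0 := (degreeOf_two_pow i _).le
  have hH : degreeOf i ((s.H : PZ)) ≤ 0 := (degreeOf_nat i _).le
  have h2 : degreeOf i (2 : PZ) ≤ 0 := (degreeOf_two i).le
  unfold ePoly
  refine deg_add_le ?_ ?_
  · have e1 := deg_mul_le hct hu2
    have e2 := deg_mul_le (deg_mul_le h2 hH) hu1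
    have e3 := deg_mul_le hT (deg_add_le (e1.trans (show c + a ≤ c + e + 7 * a by omega))
      (e2.trans (show 0 + 0 + a ≤ c + e + 7 * a by omega)))
    exact e3.trans (by omega)
  · have e1 := deg_mul_le hT' (deg_pow_le hu 4)
    have e2 := deg_mul_le hB (deg_pow_le hu 7)
    have e3 := deg_add_le (e1.trans (show 0 + 4 * a ≤ e + 7 * a by omega)) e2
    have e4 := deg_mul_le (deg_mul_le (deg_pow_le hH 2) hct) e3
    exact e4.trans (by omega)

/-- **S1**. -/
theorem s1_defect : S1_defect := by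
  intro hd s τ δ hτ hδ hb hn hk hcr
  set L := s.L hd with hL
  set P : PZ := ePoly hd s L (X 0) (X 1) with hP
  have hlen : L.length = hd.n := length_dec2 _ _ _
  have hrow : ∀ r ∈ L, r.length ≤ hd.k := rows_dec2 _ _ _
  have hnorm : norm1 P ≤ (crude hd s (n2 L) : ℤ) := norm1_ePoly hd s L hlen.le
  have hlt : norm1 P < 2 ^ (hd.b - 1) := lt_of_le_of_lt hnorm (by exact_mod_cast hcr)
  have hX01 : degreeOf (1 : Fin 2) (X 0 : PZ) ≤ 0 := by rw [degreeOf_X]; simp
  have hX11 : degreeOf (1 : Fin 2) (X 1 : PZ) ≤ 1 := by rw [degreeOf_X]; simp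
  have hX00 : degreeOf (0 : Fin 2) (X 0 : PZ) ≤ 1 := by rw [degreeOf_X]; simp
  have hX10 : degreeOf (0 : Fin 2) (X 1 : PZ) ≤ 0 := by rw [degreeOf_X]; simp
  have hrow' : ∀ r ∈ L, r.length ≤ (hd.k - 1) + 1 := fun r hr => (hrow r hr).trans (by omega)
  have h1 : degreeOf 1 P < 7 * hd.k := by
    have := deg_ePoly hd s L 1 (hd.k - 1) 0 1 (deg1_ev2 L _ hrow')
      (deg1_ev2 _ _ (rows_dTau _ L hrow')) (deg1_ev2 _ _ (rows_dTau _ _ (rows_dTau _ L hrow')))
      hX01 hX11
    rw [← hP] at this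
    omega
  have h0 : degreeOf 0 P < 7 * hd.n := by
    have := deg_ePoly hd s L 0 (hd.n - 1) 1 0 (deg0_ev2 L _ (by omega))
      (deg0_ev2 _ _ (by rw [length_dTau]; omega))
      (deg0_ev2 _ _ (by rw [length_dTau, length_dTau]; omega)) hX00 hX10
    rw [← hP] at this
    omega
  have hk' := p12_kron P hd.b (7 * hd.k) (7 * hd.n) hb (by omega) h1 h0 hlt
  have hev : (MvPolynomial.eval (![(2 ^ hd.b) ^ (7 * hd.k), 2 ^ hd.b] : Fin 2 → ℤ) P) =
      eInt hd s L := by
    rw [hP, map_ePoly, eInt_eq]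
    simp
  rw [hev] at hk'
  have hmain : ‖MvPolynomial.aeval (![τ, δ] : Fin 2 → ℂ) P‖ ≤ (norm1 P : ℝ) := by
    apply norm1_aeval
    intro i
    fin_cases i
    · simpa using hτ
    · simpa using hδ
  have hae : MvPolynomial.aeval (![τ, δ] : Fin 2 → ℂ) P = ePoly hd s L τ δ := by
    have := map_ePoly ((MvPolynomial.aeval (![τ, δ] : Fin 2 → ℂ) : PZ →ₐ[ℤ] ℂ) : PZ →+* ℂ)
      hd s L (X 0) (X 1)
    simpa [hP] using this
  rw [← hae]
  refine hmain.trans (le_of_eq ?_)
  rw [hk']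
  push_cast
  rfl

end Pool.Agent.W2helper68.LN
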