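import Pool.Agent.W2helper59.LN.Eng

set_option autoImplicit false

namespace Pool.Agent.W2helper68.LN

open Pool.Agent.W2helper59.LN

/-! ### list evaluation -/

section ev
variable {A : Type*} [CommRing A]

lemma ev1_addL (d : A) : ∀ l m : List ℤ, ev1 d (addL l m) = ev1 d l + ev1 d m
  | [], m => by simp [addL, ev1]
  | a :: l, [] => by simp [addL, ev1]
  | a :: l, b :: m => by
      simp only [addL, ev1, ev1_addL d l m]
      push_cast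
      ring

lemma ev1_smulL (d : A) (c : ℤ) (l : List ℤ) : ev1 d (smulL c l) = (c : A) * ev1 d l := by
  induction l with
  | nil => simp [smulL, ev1]
  | cons a l ih =>
    simp only [smulL, ev1, ih]
    push_cast
    ring

lemma ev2_addLL (t d : A) :
    ∀ l m : List (List ℤ), ev2 t d (addLL l m) = ev2 t d l + ev2 t d m
  | [], m => by simp [addLL, ev2]
  | a :: l, [] => by simp [addLL, ev2]
  | a :: l, b :: m => by
      simp only [addLL, ev2, ev2_addLL t d l m, ev1_addL]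
      ring

lemma ev2_smulLL (t d : A) (c : ℤ) (l : List (List ℤ)) :
    ev2 t d (smulLL c l) = (c : A) * ev2 t d l := by
  induction l with
  | nil => simp [smulLL, ev2]
  | cons a l ih =>
    simp only [smulLL, ev2, ih, ev1_smulL]
    ring

lemma ev2_rowEv (d : A) (σ : ℤ) (L : List (List ℤ)) :
    ev2 (σ : A) d L = ev1 d (rowEv σ L) := by
  induction L with
  | nil => simp [rowEv, ev2, ev1]
  | cons a l ih => simp only [rowEv, ev2, ev1_addL, ev1_smulL, ih]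

lemma ev2_qL (t d : A) (s : StepD) (L : List (List ℤ)) :
    ev2 t d (qL s L) =
      (s.H : A) * ev2 t d L + ((s.C : A) + t * (s.H : A)) * ev2 t d (dTau L) := by
  simp only [qL, ev2_addLL, ev2_smulLL, ev2, ev1, Int.cast_natCast]
  ring

end ev

lemma norm_ev1_le (δ : ℂ) (hδ : ‖δ‖ ≤ 1) (l : List ℤ) : ‖ev1 δ l‖ ≤ (n1 l : ℝ) := by
  induction l with
  | nil => simp [ev1, n1]
  | cons a l ih =>
    simp only [ev1, n1]
    refine (norm_add_le _ _).trans ?_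
    rw [norm_mul]
    push_cast
    have h1 : ‖(a : ℂ)‖ = |(a : ℝ)| := by
      rw [Complex.norm_intCast]
    rw [h1, Nat.cast_natAbs, Int.cast_abs]
    have h2 : ‖δ‖ * ‖ev1 δ l‖ ≤ 1 * (n1 l : ℝ) :=
      mul_le_mul hδ ih (norm_nonneg _) zero_le_one
    linarith

lemma norm_diffN (δ : ℂ) (hδ : ‖δ‖ ≤ 1) (p q : ℤ) (x y : List ℤ) :
    ‖(p : ℂ) * ev1 δ y - (q : ℂ) * ev1 δ x‖ ≤ (diffN p q x y : ℝ) := by
  have h := norm_ev1_le δ hδ (addL (smulL p y) (smulL (-q) x))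
  rw [ev1_addL, ev1_smulL, ev1_smulL] at h
  refine le_trans (le_of_eq ?_) h
  congr 1
  push_cast
  ring

/-! ### values at the end points -/

lemma cast_c (s : StepD) : ((s.c : ℚ) : ℝ) = (s.C : ℝ) / 2 ^ s.mm := by
  simp [StepD.c]

lemma cast_h (s : StepD) : ((s.h : ℚ) : ℝ) = (s.H : ℝ) / 2 ^ s.mm := by
  simp [StepD.h]

lemma cast_a (s : StepD) : ((s.a : ℚ) : ℝ) = ((s.C : ℝ) - s.H) / 2 ^ s.mm := by
  simp [StepD.a]

lemma cast_bb (s : StepD) : ((s.bb : ℚ) : ℝ) = ((s.C : ℝ) + s.H) / 2 ^ s.mm := by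
  simp [StepD.bb]

lemma tau_at (s : StepD) (hH : 1 ≤ s.H) (σ t : ℝ) (ht : t = ((s.C : ℝ) + σ * s.H) / 2 ^ s.mm) :
    (t - ((s.c : ℚ) : ℝ)) / ((s.h : ℚ) : ℝ) = σ := by
  have hH' : (0 : ℝ) < s.H := by exact_mod_cast hH
  rw [cast_c, cast_h, ht]
  field_simp
  ring

lemma th_at (s : StepD) (hH : 1 ≤ s.H) (σ t : ℝ) (ht : t = ((s.C : ℝ) + σ * s.H) / 2 ^ s.mm) :
    t / ((s.h : ℚ) : ℝ) = ((s.C : ℝ) + σ * s.H) / s.H := by
  have hH' : (0 : ℝ) < s.H := by exact_mod_cast hH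
  rw [cast_h, ht]
  field_simp

lemma wS_at (hd : Hdr) (s : StepD) (δ : ℂ) (hH : 1 ≤ s.H) (σ : ℤ) (t : ℝ)
    (ht : t = ((s.C : ℝ) + σ * s.H) / 2 ^ s.mm) :
    wS hd s δ t = ev1 δ (rowEv σ (s.L hd)) / 2 ^ s.M := by
  have h := tau_at s hH σ t ht
  unfold wS
  rw [h, ← ev2_rowEv]
  simp

lemma rS_at (hd : Hdr) (s : StepD) (δ : ℂ) (hH : 1 ≤ s.H) (σ : ℤ) (t : ℝ)
    (ht : t = ((s.C : ℝ) + σ * s.H) / 2 ^ s.mm) :
    rS hd s δ t = ev1 δ (rowEv σ (qL s (s.L hd))) / (2 ^ s.M * s.H) := by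
  have hH' : (s.H : ℂ) ≠ 0 := by
    have : s.H ≠ 0 := by omega
    exact_mod_cast this
  have h := tau_at s hH σ t ht
  have h2 := th_at s hH σ t ht
  unfold rS
  rw [wS_at hd s δ hH σ t ht, h, h2, ← ev2_rowEv, ← ev2_rowEv, ev2_qL]
  push_cast
  field_simp

/-! ### the triangle inequality -/

lemma tri {x y μ k m j1 j2 X Y : ℝ} (hx : 0 ≤ x) (hy : 0 ≤ y) (hμ : 0 ≤ μ) (hk : 0 ≤ k)
    (hj1 : 0 ≤ j1) (hj2 : 0 ≤ j2) (hX : 0 ≤ X) (hY : 0 ≤ Y) (hXx : X ≤ k * x + j1)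
    (hYy : Y ≤ y + j2) (h : x ^ 2 + y ^ 2 ≤ μ ^ 2) (h1 : μ + (j1 + j2) ≤ m)
    (h2 : k * μ + (j1 + j2) ≤ m) : X ^ 2 + Y ^ 2 ≤ m ^ 2 := by
  set K := max 1 k with hK
  have hK1 : 1 ≤ K := le_max_left _ _
  have hKk : k ≤ K := le_max_right _ _
  have hKm : K * μ + (j1 + j2) ≤ m := by
    rcases max_choice 1 k with h' | h'
    · rw [hK, h', one_mul]; exact h1
    · rw [hK, h']; exact h2
  have hxμ : x ≤ μ := by
    by_contra hc
    push Not at hc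
    nlinarith [sq_nonneg y]
  have hyμ : y ≤ μ := by
    by_contra hc
    push Not at hc
    nlinarith [sq_nonneg x]
  have ha : k * x ≤ K * μ := mul_le_mul hKk hxμ hx (by linarith)
  have hb : y ≤ K * μ := by nlinarith
  have hsum : (k * x) ^ 2 + y ^ 2 ≤ (K * μ) ^ 2 := by
    have e1 : (k * x) ^ 2 ≤ (K * x) ^ 2 := by
      have : k * x ≤ K * x := mul_le_mul_of_nonneg_right hKk hx
      exact pow_le_pow_left₀ (mul_nonneg hk hx) this 2
    have e2 : y ^ 2 ≤ (K * y) ^ 2 := by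
      have : y ≤ K * y := by nlinarith
      exact pow_le_pow_left₀ hy this 2
    calc (k * x) ^ 2 + y ^ 2 ≤ (K * x) ^ 2 + (K * y) ^ 2 := add_le_add e1 e2
      _ = K ^ 2 * (x ^ 2 + y ^ 2) := by ring
      _ ≤ K ^ 2 * μ ^ 2 := by gcongr
      _ = (K * μ) ^ 2 := by ring
  have hX2 : X ^ 2 ≤ (k * x + j1) ^ 2 := pow_le_pow_left₀ hX hXx 2
  have hY2 : Y ^ 2 ≤ (y + j2) ^ 2 := pow_le_pow_left₀ hY hYy 2
  have hKμ : 0 ≤ K * μ := mul_nonneg (by linarith) hμ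
  calc X ^ 2 + Y ^ 2 ≤ (k * x + j1) ^ 2 + (y + j2) ^ 2 := add_le_add hX2 hY2
    _ = ((k * x) ^ 2 + y ^ 2) + 2 * ((k * x) * j1 + y * j2) + (j1 ^ 2 + j2 ^ 2) := by ring
    _ ≤ (K * μ) ^ 2 + 2 * ((K * μ) * j1 + (K * μ) * j2) + ((j1 + j2) ^ 2) := by
        have e1 : (k * x) * j1 ≤ (K * μ) * j1 := mul_le_mul_of_nonneg_right ha hj1
        have e2 : y * j2 ≤ (K * μ) * j2 := mul_le_mul_of_nonneg_right hb hj2
        have e3 : j1 ^ 2 + j2 ^ 2 ≤ (j1 + j2) ^ 2 := by nlinarith [mul_nonneg hj1 hj2]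
        linarith
    _ = (K * μ + (j1 + j2)) ^ 2 := by ring
    _ ≤ m ^ 2 := pow_le_pow_left₀ (by linarith) hKm 2

/-- general transition -/
lemma NB_trans {g g' μ m t jv jq : ℝ} {v w w' q r r' : ℂ} (hg : 0 < g) (hg' : 0 ≤ g')
    (hμ : 0 ≤ μ) (ht : 0 ≤ t) (hjv : ‖w' - w‖ ≤ jv) (hjq : ‖r' - r‖ ≤ jq)
    (h1 : μ + (g' * t * jv + jq) ≤ m) (h2 : g' / g * μ + (g' * t * jv + jq) ≤ m)
    (h : NB g μ t v w q r) : NB g' m t v w' q r' := by
  unfold NB at h ⊢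
  have hjv0 : 0 ≤ jv := (norm_nonneg _).trans hjv
  have hjq0 : 0 ≤ jq := (norm_nonneg _).trans hjq
  have hvw : ‖v - w'‖ ≤ ‖v - w‖ + jv := by
    calc ‖v - w'‖ = ‖(v - w) - (w' - w)‖ := by congr 1; ring
      _ ≤ ‖v - w‖ + ‖w' - w‖ := norm_sub_le _ _
      _ ≤ _ := by linarith
  have hqr : ‖q - r'‖ ≤ ‖q - r‖ + jq := by
    calc ‖q - r'‖ = ‖(q - r) - (r' - r)‖ := by congr 1; ring
      _ ≤ ‖q - r‖ + ‖r' - r‖ := norm_sub_le _ _
      _ ≤ _ := by linarith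
  refine tri (x := g * (t * ‖v - w‖)) (y := ‖q - r‖) (k := g' / g) (j1 := g' * t * jv)
    (j2 := jq) (by positivity) (norm_nonneg _) hμ (by positivity) (by positivity) hjq0
    (by positivity) (norm_nonneg _) ?_ hqr h h1 h2
  have : g' / g * (g * (t * ‖v - w‖)) = g' * (t * ‖v - w‖) := by field_simp
  rw [this]
  have h3 : g' * (t * ‖v - w'‖) ≤ g' * (t * (‖v - w‖ + jv)) := by gcongr
  linarith

lemma sc_nonneg (x : ℕ) : (0 : ℝ) ≤ ((sc x : ℚ) : ℝ) := by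
  have : (0 : ℚ) ≤ sc x := by unfold sc; positivity
  exact_mod_cast this

lemma sc_pos {x : ℕ} (h : 1 ≤ x) : (0 : ℝ) < ((sc x : ℚ) : ℝ) := by
  have : (0 : ℚ) < sc x := by unfold sc; positivity
  exact_mod_cast this

lemma stepOK_basic {hd : Hdr} {s : StepD} (h : stepOK hd s = true) :
    1 ≤ s.H ∧ s.H ≤ s.C ∧ 1 ≤ s.g := by
  simp only [stepOK, Bool.and_eq_true, Nat.ble_eq] at h
  exact ⟨by tauto, by tauto, by tauto⟩

theorem s4_jump : S4_jump := by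
  refine ⟨?_, ?_⟩
  · intro hd s s' δ v q hδ hs hs' hj
    obtain ⟨hH, hHC, hg⟩ := stepOK_basic hs
    obtain ⟨hH', hHC', hg'⟩ := stepOK_basic hs'
    simp only [jumpOK, Bool.and_eq_true, decide_eq_true_eq] at hj
    obtain ⟨⟨⟨⟨⟨hjeq, hlt⟩, hm1⟩, hm2⟩, hn1⟩, hn2⟩ := hj
    have hbbQ : s.bb = s'.a := by
      unfold StepD.bb StepD.a
      have h2 : (0 : ℚ) < 2 ^ s.mm := by positivity
      have h2' : (0 : ℚ) < 2 ^ s'.mm := by positivity
      rw [div_eq_div_iff h2.ne' h2'.ne']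
      have : (((s.C + s.H) * 2 ^ s'.mm + s'.H * 2 ^ s.mm : ℕ) : ℚ) = ((s'.C * 2 ^ s.mm : ℕ) : ℚ) := by
        rw [hjeq]
      push_cast at this
      linarith
    have hbb : ((s.bb : ℚ) : ℝ) = ((s'.a : ℚ) : ℝ) := by rw [hbbQ]
    have hσ : ((s.bb : ℚ) : ℝ) = ((s.C : ℝ) + ((1 : ℤ) : ℝ) * s.H) / 2 ^ s.mm := by
      rw [cast_bb]; push_cast; ring
    have hσ' : ((s'.a : ℚ) : ℝ) = ((s'.C : ℝ) + ((-1 : ℤ) : ℝ) * s'.H) / 2 ^ s'.mm := by
      rw [cast_a]; push_cast; ring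
    have hHp : (0 : ℝ) < s.H := by exact_mod_cast hH
    have hHp' : (0 : ℝ) < s'.H := by exact_mod_cast hH'
    have ha0 : 0 ≤ ((s'.a : ℚ) : ℝ) := by
      rw [cast_a]
      have : (s'.H : ℝ) ≤ s'.C := by exact_mod_cast hHC'
      exact div_nonneg (by linarith) (by positivity)
    refine ⟨hbbQ, ?_, ?_⟩
    · intro hNB
      rw [← hbb] at *
      set jv : ℝ := (diffN (2 ^ s.M) (2 ^ s'.M) (rowEv 1 (s.L hd)) (rowEv (-1) (s'.L hd)) : ℝ) /
        2 ^ (s.M + s'.M) with hjv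
      set jq : ℝ := (diffN (2 ^ s.M * s.H) (2 ^ s'.M * s'.H) (rowEv 1 (qL s (s.L hd)))
        (rowEv (-1) (qL s' (s'.L hd))) : ℝ) / (2 ^ (s.M + s'.M) * (s.H * s'.H)) with hjq
      have hw : ‖wS hd s' δ ((s.bb : ℚ) : ℝ) - wS hd s δ ((s.bb : ℚ) : ℝ)‖ ≤ jv := by
        rw [wS_at hd s' δ hH' (-1) _ hσ', wS_at hd s δ hH 1 _ hσ]
        have h := norm_diffN δ hδ (2 ^ s.M) (2 ^ s'.M) (rowEv 1 (s.L hd)) (rowEv (-1) (s'.L hd))
        have e : ev1 δ (rowEv (-1) (s'.L hd)) / 2 ^ s'.M - ev1 δ (rowEv 1 (s.L hd)) / 2 ^ s.M =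
            (((2 ^ s.M : ℤ) : ℂ) * ev1 δ (rowEv (-1) (s'.L hd)) -
              ((2 ^ s'.M : ℤ) : ℂ) * ev1 δ (rowEv 1 (s.L hd))) / 2 ^ (s.M + s'.M) := by
          push_cast
          rw [pow_add]
          field_simp
        rw [e, norm_div, hjv, norm_pow, Complex.norm_ofNat]
        gcongr
      have hr : ‖rS hd s' δ ((s.bb : ℚ) : ℝ) - rS hd s δ ((s.bb : ℚ) : ℝ)‖ ≤ jq := by
        rw [rS_at hd s' δ hH' (-1) _ hσ', rS_at hd s δ hH 1 _ hσ]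
        have h := norm_diffN δ hδ (2 ^ s.M * s.H) (2 ^ s'.M * s'.H) (rowEv 1 (qL s (s.L hd)))
          (rowEv (-1) (qL s' (s'.L hd)))
        have hHc : (s.H : ℂ) ≠ 0 := by
          have : s.H ≠ 0 := by omega
          exact_mod_cast this
        have hHc' : (s'.H : ℂ) ≠ 0 := by
          have : s'.H ≠ 0 := by omega
          exact_mod_cast this
        have e : ev1 δ (rowEv (-1) (qL s' (s'.L hd))) / (2 ^ s'.M * s'.H) -
            ev1 δ (rowEv 1 (qL s (s.L hd))) / (2 ^ s.M * s.H) =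
            (((2 ^ s.M * s.H : ℤ) : ℂ) * ev1 δ (rowEv (-1) (qL s' (s'.L hd))) -
              ((2 ^ s'.M * s'.H : ℤ) : ℂ) * ev1 δ (rowEv 1 (qL s (s.L hd)))) /
              (2 ^ (s.M + s'.M) * (s.H * s'.H)) := by
          push_cast
          rw [pow_add]
          field_simp
        have hn : ‖(2 : ℂ) ^ (s.M + s'.M) * ((s.H : ℂ) * s'.H)‖ =
            2 ^ (s.M + s'.M) * ((s.H : ℝ) * s'.H) := by
          rw [norm_mul, norm_mul, norm_pow, Complex.norm_ofNat, Complex.norm_natCast,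
            Complex.norm_natCast]
        rw [e, norm_div, hjq, hn]
        gcongr
      have hm1' : ((sc s.mu1 : ℚ) : ℝ) +
          (((sc s'.g : ℚ) : ℝ) * ((s.bb : ℚ) : ℝ) * jv + jq) ≤ ((sc s'.mu0 : ℚ) : ℝ) := by
        rw [hjv, hjq]
        have := (Rat.cast_le (K := ℝ)).mpr hm1
        push_cast at this
        have hb3 : ((s'.a : ℚ) : ℝ) = ((s.bb : ℚ) : ℝ) := by rw [hbbQ]
        rw [hb3] at this
        exact this
      have hm2' : ((sc s'.g : ℚ) : ℝ) / ((sc s.g : ℚ) : ℝ) * ((sc s.mu1 : ℚ) : ℝ) +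
          (((sc s'.g : ℚ) : ℝ) * ((s.bb : ℚ) : ℝ) * jv + jq) ≤ ((sc s'.mu0 : ℚ) : ℝ) := by
        rw [hjv, hjq]
        have := (Rat.cast_le (K := ℝ)).mpr hm2
        push_cast at this
        have hb3 : ((s'.a : ℚ) : ℝ) = ((s.bb : ℚ) : ℝ) := by rw [hbbQ]
        rw [hb3] at this
        exact this
      exact NB_trans (sc_pos hg) (sc_nonneg _) (sc_nonneg _) ha0 hw hr hm1' hm2' hNB
    · intro v' q' D hD hNB
      rw [← hbb] at *
      have hm1' : ((sc s.nu1 : ℚ) : ℝ) ≤ ((sc s'.nu0 : ℚ) : ℝ) := by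
        have : sc s.nu1 ≤ sc s'.nu0 := by
          unfold sc
          have : (s.nu1 : ℚ) ≤ s'.nu0 := by exact_mod_cast hn1
          gcongr
        exact_mod_cast this
      have hm2' : ((sc s'.g : ℚ) : ℝ) / ((sc s.g : ℚ) : ℝ) * ((sc s.nu1 : ℚ) : ℝ) ≤
          ((sc s'.nu0 : ℚ) : ℝ) := by
        exact_mod_cast hn2
      refine NB_trans (jv := 0) (jq := 0) (sc_pos hg) (sc_nonneg _)
        (mul_nonneg (sc_nonneg _) hD) ha0 (by simp) (by simp) ?_ ?_ hNB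
      · have := mul_le_mul_of_nonneg_right hm1' hD
        linarith
      · have := mul_le_mul_of_nonneg_right hm2' hD
        linarith
  · intro hd s δ hδ hs hst
    obtain ⟨hH, hHC, hg⟩ := stepOK_basic hs
    simp only [startOK, Bool.and_eq_true, decide_eq_true_eq] at hst
    obtain ⟨hst1, -⟩ := hst
    have hσ : ((s.a : ℚ) : ℝ) = ((s.C : ℝ) + ((-1 : ℤ) : ℝ) * s.H) / 2 ^ s.mm := by
      rw [cast_a]; push_cast; ring
    have hHp : (0 : ℝ) < s.H := by exact_mod_cast hH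
    have hHc : (s.H : ℂ) ≠ 0 := by
      have : s.H ≠ 0 := by omega
      exact_mod_cast this
    have ha0 : 0 ≤ ((s.a : ℚ) : ℝ) := by
      rw [cast_a]
      have : (s.H : ℝ) ≤ s.C := by exact_mod_cast hHC
      exact div_nonneg (by linarith) (by positivity)
    set jv : ℝ := (diffN (2 ^ hd.e) (2 ^ s.M) [hd.A0, hd.A1] (rowEv (-1) (s.L hd)) : ℝ) /
        2 ^ (hd.e + s.M) with hjv
    set jq : ℝ := (diffN (2 ^ hd.e) (2 ^ s.M * s.H) [hd.Q0, hd.Q1]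
      (rowEv (-1) (qL s (s.L hd))) : ℝ) / (2 ^ (hd.e + s.M) * s.H) with hjq
    have hw : ‖((hd.A0 : ℂ) + hd.A1 * δ) / 2 ^ hd.e - wS hd s δ ((s.a : ℚ) : ℝ)‖ ≤ jv := by
      rw [wS_at hd s δ hH (-1) _ hσ]
      have h := norm_diffN δ hδ (2 ^ hd.e) (2 ^ s.M) [hd.A0, hd.A1] (rowEv (-1) (s.L hd))
      have e : ((hd.A0 : ℂ) + hd.A1 * δ) / 2 ^ hd.e - ev1 δ (rowEv (-1) (s.L hd)) / 2 ^ s.M =
          -((((2 ^ hd.e : ℤ) : ℂ) * ev1 δ (rowEv (-1) (s.L hd)) -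
            ((2 ^ s.M : ℤ) : ℂ) * ev1 δ [hd.A0, hd.A1]) / 2 ^ (hd.e + s.M)) := by
        simp only [ev1]
        push_cast
        rw [pow_add]
        field_simp
        ring
      rw [e, norm_neg, norm_div, hjv, norm_pow, Complex.norm_ofNat]
      gcongr
    have hr : ‖((hd.Q0 : ℂ) + hd.Q1 * δ) / 2 ^ hd.e - rS hd s δ ((s.a : ℚ) : ℝ)‖ ≤ jq := by
      rw [rS_at hd s δ hH (-1) _ hσ]
      have h := norm_diffN δ hδ (2 ^ hd.e) (2 ^ s.M * s.H) [hd.Q0, hd.Q1]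
        (rowEv (-1) (qL s (s.L hd)))
      have e : ((hd.Q0 : ℂ) + hd.Q1 * δ) / 2 ^ hd.e -
          ev1 δ (rowEv (-1) (qL s (s.L hd))) / (2 ^ s.M * s.H) =
          -((((2 ^ hd.e : ℤ) : ℂ) * ev1 δ (rowEv (-1) (qL s (s.L hd))) -
            ((2 ^ s.M * s.H : ℤ) : ℂ) * ev1 δ [hd.Q0, hd.Q1]) / (2 ^ (hd.e + s.M) * s.H)) := by
        simp only [ev1]
        push_cast
        rw [pow_add]
        field_simp
        ring
      have hn : ‖(2 : ℂ) ^ (hd.e + s.M) * (s.H : ℂ)‖ = 2 ^ (hd.e + s.M) * (s.H : ℝ) := by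
        rw [norm_mul, norm_pow, Complex.norm_ofNat, Complex.norm_natCast]
      rw [e, norm_neg, norm_div, hjq, hn]
      gcongr
    have hm : ((sc s.g : ℚ) : ℝ) * ((s.a : ℚ) : ℝ) * jv + jq ≤ ((sc s.mu0 : ℚ) : ℝ) := by
      rw [hjv, hjq]
      have := (Rat.cast_le (K := ℝ)).mpr hst1
      push_cast at this
      exact this
    have hz : NB ((sc s.g : ℚ) : ℝ) 0 ((s.a : ℚ) : ℝ) (((hd.A0 : ℂ) + hd.A1 * δ) / 2 ^ hd.e)
        (((hd.A0 : ℂ) + hd.A1 * δ) / 2 ^ hd.e) (((hd.Q0 : ℂ) + hd.Q1 * δ) / 2 ^ hd.e)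
        (((hd.Q0 : ℂ) + hd.Q1 * δ) / 2 ^ hd.e) := by
      simp [NB]
    refine NB_trans (sc_pos hg) (sc_nonneg _) le_rfl ha0 ?_ ?_ ?_ ?_ hz (jv := jv) (jq := jq)
    · rw [norm_sub_rev]; exact hw
    · rw [norm_sub_rev]; exact hr
    · linarith
    · linarith

end Pool.Agent.W2helper68.LN
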